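import Pool.Agent.U252.HR.FM2
import Pool.Agent.U252.HR.Set2
import Pool.Agent.U544.LI.Dir2
import Pool.Agent.U544.LI.DedD

/-!
# One first moment over the primes decides about the zeros at the central point

For `q ≥ 1` let `D_q(x) = (8/3) √x - φ(q) ∑_{n ≡ 1 (q)} Λ(n) n^(-1/2) min(n/x, x/n)`, a smoothed error term in the count
of the prime powers `n ≡ 1` modulo `q`, and `M_q(X) = (1/log X) ∫_1^X D_q(x) dx/x`. We prove for every `q`:

* if all the `L(s, χ)`, `χ` modulo `q`, satisfy the Riemann hypothesis, then `M_q(X) → 2 ∑_χ ord_{s=1/2} L(s, χ)`;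
* (unconditionally) for every real `v` we have `limsup M_q(X) ≤ v` if and only if the Riemann hypothesis holds for all
  the `L(s, χ)` and `2 ∑_χ ord_{s=1/2} L(s, χ) ≤ v`. For `v = 0`: the Riemann hypothesis holds for all `L(s, χ)` and
  `L(1/2, χ) ≠ 0` for all `χ` modulo `q` if and only if `limsup M_q(X) ≤ 0`; for `v = 2 N`: at most `N` characters with
  `L(1/2, χ) = 0`.

The same is proved for the Dedekind zeta function of every number field `E`, with the sum over the ideals: for a quadratic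
field with the character `χ` this is the case of the single real character `χ`, as `ζ_E(s) = ζ(s) L(s, χ)`.

Nothing is assumed on the ordinates of the zeros. The new point is the implication from the one-sided bound for the
mean to the Riemann hypothesis: the mean value allows cancellation, so that `D` itself is not bounded, and Landau's
argument is carried out for the integral of `D`, real zeros included. The explicit formula is that of
`Pool.Agent.U544.LI`.
-/

set_option autoImplicit false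

open Filter Topology NumberField

namespace Pool.Agent.Results.MP_afd523_nt.FirstMoment

/-- `(1 / log X) ∫_1^X W(x) dx / x` -/
noncomputable def logMean (W : ℝ → ℝ) (X : ℝ) : ℝ := (∫ x in (1:ℝ)..X, W x / x) / Real.log X

/-- `limsup_{X → ∞} W(X) ≤ v` -/
def LimsupLe (W : ℝ → ℝ) (v : ℝ) : Prop := ∀ ε : ℝ, 0 < ε → ∀ᶠ X in atTop, W X ≤ v + ε

/-! ### Dirichlet characters -/

/-- `D_q(x) = (8/3) √x - φ(q) ∑_{n ≡ 1 (q)} Λ(n) n^(-1/2) min(n/x, x/n)` -/
noncomputable def D (q : ℕ) (x : ℝ) : ℝ :=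
  8 / 3 * √x - ∑' n : ℕ, if (n : ZMod q) = 1 then
    (q.totient : ℝ) * ArithmeticFunction.vonMangoldt n / √n * min (n / x) (x / n) else 0

/-- the Riemann hypothesis for the characters modulo `q` -/
def GRH (q : ℕ) [NeZero q] : Prop := ∀ χ : DirichletCharacter ℂ q, ∀ ρ : ℂ, 0 < ρ.re → ρ.re < 1 →
  DirichletCharacter.LFunction χ ρ = 0 → ρ.re = 1 / 2

/-- `∑_χ ord_{s=1/2} L(s, χ)` over the characters modulo `q` -/
noncomputable def central (q : ℕ) [NeZero q] : ℕ := by
  classical
  exact ∑ χ : DirichletCharacter ℂ q, analyticOrderNatAt (DirichletCharacter.LFunction χ) (1 / 2)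

/-! ### number fields -/

section field

variable (E : Type) [Field E] [NumberField E]

variable {E} in
open Classical in
/-- the von Mangoldt function of an ideal: `log N𝔭` for `𝔭^k`, `k ≥ 1`, and `0` otherwise -/
noncomputable def Lam (𝔞 : Ideal (𝓞 E)) : ℝ := if IsPrimePow 𝔞 then Real.log (Ideal.absNorm 𝔞.radical) else 0

/-- `D_E(x) = (8/3) √x - ∑_𝔞 Λ(𝔞) N𝔞^(-1/2) min(N𝔞/x, x/N𝔞)` -/
noncomputable def DE (x : ℝ) : ℝ :=
  8 / 3 * √x - ∑' 𝔞 : Ideal (𝓞 E), Lam 𝔞 / √(Ideal.absNorm 𝔞) * min (Ideal.absNorm 𝔞 / x) (x / Ideal.absNorm 𝔞)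

/-- `Z` is the continuation of the Dedekind zeta function `ζ_E(s)` to all `s ≠ 1` -/
def IsZeta (Z : ℂ → ℂ) : Prop := (∀ s : ℂ, s ≠ 1 → AnalyticAt ℂ Z s) ∧ ∀ s : ℂ, 1 < s.re → Z s = dedekindZeta E s

end field

/-- the Riemann hypothesis for `Z` -/
def RH (Z : ℂ → ℂ) : Prop := ∀ ρ : ℂ, 0 < ρ.re → ρ.re < 1 → Z ρ = 0 → ρ.re = 1 / 2

/-! ### proofs -/

/-- the product of all the L-functions modulo `q` -/
noncomputable def P (q : ℕ) [NeZero q] (s : ℂ) : ℂ := by
  classical
  exact ∏ χ : DirichletCharacter ℂ q, DirichletCharacter.LFunction χ s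

open Pool.Agent.U544.LI in
lemma grh_iff (q : ℕ) [NeZero q] : GRH q ↔ RHs (P q) := by
  classical
  constructor
  · intro h ρ h0 h1 hz
    unfold P at hz
    obtain ⟨χ, -, hχ⟩ := Finset.prod_eq_zero_iff.1 hz
    exact h χ ρ h0 h1 hχ
  · intro h χ ρ h0 h1 hz
    refine h ρ h0 h1 ?_
    unfold P
    exact Finset.prod_eq_zero (Finset.mem_univ χ) hz

open Pool.Agent.U544.LI in
lemma ff_P (q : ℕ) [NeZero q] (z : ℂ) (hz : z ≠ 1 / 2) : ff q z = (z - 1 / 2) * P q (1 / 2 + z) := by
  classical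
  have h1 : (1 / 2 + z : ℂ) ≠ 1 := fun h => hz (by linear_combination h)
  unfold ff P
  rw [FF_eq h1]
  ring

lemma L_two {q : ℕ} [NeZero q] (χ : DirichletCharacter ℂ q) : DirichletCharacter.LFunction χ 2 ≠ 0 :=
  DirichletCharacter.LFunction_ne_zero_of_one_le_re χ (Or.inr (by norm_num)) (by norm_num)

open Pool.Agent.U544.LI in
lemma order_P (q : ℕ) [NeZero q] : analyticOrderNatAt (P q) (1 / 2) = central q := by
  classical
  have h : LD (ff q) (Lq q) 1 := ld_q
  have e1 : mu (ff q) 0 = analyticOrderNatAt (P q) (1 / 2) := by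
    rw [ord_eq h (ff_P q) (by norm_num), add_zero]
  have e2 : mu (ff q) 0 = ∑ χ ∈ (Finset.univ : Finset (DirichletCharacter ℂ q)),
      1 * analyticOrderNatAt (DirichletCharacter.LFunction χ) (1 / 2 + 0) := by
    refine mu_fam (d := fun _ => 1) (Z := fun χ : DirichletCharacter ℂ q => DirichletCharacter.LFunction χ)
      (fun χ _ s hs => L_an χ hs) (fun χ _ => L_two χ) (by norm_num) ?_
    have : ∀ᶠ z in 𝓝 (0:ℂ), z ≠ 1 / 2 := (continuous_id.tendsto 0).eventually_ne (by norm_num)
    filter_upwards [this] with z hz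
    rw [ff_P q z hz]
    unfold P
    simp only [pow_one]
  rw [← e1, e2]
  unfold central
  simp only [one_mul, add_zero]

open Pool.Agent.U544.LI in
lemma ord_pos {q : ℕ} [NeZero q] (χ : DirichletCharacter ℂ q) :
    0 < analyticOrderNatAt (DirichletCharacter.LFunction χ) (1 / 2) ↔ DirichletCharacter.LFunction χ (1 / 2) = 0 :=
  Z_ord_pos (S := {χ}) (Z := fun χ : DirichletCharacter ℂ q => DirichletCharacter.LFunction χ)
    (fun χ _ s hs => L_an χ hs) (fun χ _ => L_two χ) (by simp) (s := 1 / 2) (by norm_num)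

lemma central_zero (q : ℕ) [NeZero q] : central q = 0 ↔
    ∀ χ : DirichletCharacter ℂ q, DirichletCharacter.LFunction χ (1 / 2) ≠ 0 := by
  classical
  unfold central
  rw [Finset.sum_eq_zero_iff]
  constructor
  · intro h χ h0
    have := (ord_pos χ).2 h0
    have := h χ (Finset.mem_univ χ)
    omega
  · intro h χ _
    by_contra h0
    exact h χ ((ord_pos χ).1 (Nat.pos_of_ne_zero h0))

lemma card_le_central (q : ℕ) [NeZero q] :
    {χ : DirichletCharacter ℂ q | DirichletCharacter.LFunction χ (1 / 2) = 0}.ncard ≤ central q := by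
  classical
  unfold central
  rw [Set.ncard_eq_toFinset_card', Finset.card_eq_sum_ones]
  calc ∑ χ ∈ {χ : DirichletCharacter ℂ q | DirichletCharacter.LFunction χ (1 / 2) = 0}.toFinset, 1
      ≤ ∑ χ ∈ {χ : DirichletCharacter ℂ q | DirichletCharacter.LFunction χ (1 / 2) = 0}.toFinset,
          analyticOrderNatAt (DirichletCharacter.LFunction χ) (1 / 2) := by
        refine Finset.sum_le_sum fun χ hχ => ?_
        rw [Set.mem_toFinset] at hχ
        exact (ord_pos χ).2 hχ
    _ ≤ _ := Finset.sum_le_sum_of_subset (Finset.subset_univ _)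

open Pool.Agent.U544.LI Pool.Agent.U252.HR in
/-- **Main theorem.** -/
theorem result :
    (∀ (q : ℕ) [NeZero q],
      (GRH q → Tendsto (logMean (D q)) atTop (𝓝 (2 * central q))) ∧
      (∀ v : ℝ, LimsupLe (logMean (D q)) v ↔ GRH q ∧ 2 * (central q : ℝ) ≤ v) ∧
      (LimsupLe (logMean (D q)) 0 ↔
        GRH q ∧ ∀ χ : DirichletCharacter ℂ q, DirichletCharacter.LFunction χ (1 / 2) ≠ 0) ∧
      ∀ N : ℕ, LimsupLe (logMean (D q)) (2 * N) →
        {χ : DirichletCharacter ℂ q | DirichletCharacter.LFunction χ (1 / 2) = 0}.ncard ≤ N) ∧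
    ∀ (E : Type) [Field E] [NumberField E], (∃ Z : ℂ → ℂ, IsZeta E Z) ∧
      ∀ Z : ℂ → ℂ, IsZeta E Z →
        (RH Z → Tendsto (logMean (DE E)) atTop (𝓝 (2 * analyticOrderNatAt Z (1 / 2)))) ∧
        (∀ v : ℝ, LimsupLe (logMean (DE E)) v ↔ RH Z ∧ 2 * (analyticOrderNatAt Z (1 / 2) : ℝ) ≤ v) ∧
        (LimsupLe (logMean (DE E)) 0 ↔ RH Z ∧ Z (1 / 2) ≠ 0) := by
  classical
  refine ⟨fun q _ => ?_, fun E _ _ => ⟨exists_Z E, fun Z hZ => ?_⟩⟩
  · have h : LD (ff q) (Lq q) 1 := ld_q
    have hD : ∀ x, 0 < x → D q x = Dd (Lq q) 1 (Real.log x) := by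
      intro x hx
      rw [Dd_log h.zero hx, D, mul_one]
      congr 1
      refine tsum_congr fun n => ?_
      rw [Lq_apply]
      split_ifs <;> simp
    obtain ⟨c1, c2⟩ := first_thm h (ff_P q) hD
    rw [order_P] at c1 c2
    rw [← grh_iff] at c1
    have c2' : ∀ v : ℝ, LimsupLe (logMean (D q)) v ↔ GRH q ∧ 2 * (central q : ℝ) ≤ v := by
      intro v
      rw [grh_iff]
      exact c2 v
    refine ⟨c1, c2', ?_, fun N hN => ?_⟩
    · rw [c2' 0, ← central_zero]
      constructor
      · rintro ⟨h1, h2⟩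
        refine ⟨h1, ?_⟩
        have h3 : (central q : ℝ) ≤ 0 := by linarith
        have h4 : central q ≤ 0 := by exact_mod_cast h3
        omega
      · rintro ⟨h1, h2⟩
        exact ⟨h1, by rw [h2]; simp⟩
    · have h1 := ((c2' _).1 hN).2
      have h2 : (central q : ℝ) ≤ N := by linarith
      exact (card_le_central q).trans (by exact_mod_cast h2)
  · have h := ld_ded E
    have hf : ∀ z : ℂ, z ≠ 1 / 2 → (fun z => ZD E (1 / 2 + z)) z = (z - 1 / 2) * Z (1 / 2 + z) := by
      intro z hz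
      have h1 : (1 / 2 + z : ℂ) ≠ 1 := fun h => hz (by linear_combination h)
      show ZD E (1 / 2 + z) = _
      rw [ZD_eq hZ h1]
      ring
    obtain ⟨c1, c2⟩ := first_thm h hf (D := DE E) (fun x hx => D_ideal E hx)
    refine ⟨c1, c2, ?_⟩
    refine (c2 0).trans ?_
    rw [← central_iff h hf]
    constructor
    · rintro ⟨h1, h2⟩
      refine ⟨h1, ?_⟩
      have h3 : (analyticOrderNatAt Z (1 / 2) : ℝ) ≤ 0 := by linarith
      have h4 : analyticOrderNatAt Z (1 / 2) ≤ 0 := by exact_mod_cast h3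
      omega
    · rintro ⟨h1, h2⟩
      exact ⟨h1, by rw [h2]; simp⟩

end Pool.Agent.Results.MP_afd523_nt.FirstMoment
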